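import Pool.Agent.TH729.CV.Iso

/-!
# Cosets of subgroups of abelian varieties: finitely many local ideals (helper62)

`D` is a cone in `K^N ∖ {0}` with a ternary operation `t` like `x - y + z`, given by polynomials
which are defined at all limit points over `L`.
-/

set_option autoImplicit false
set_option linter.unusedSectionVars false

namespace Pool.Agent.J4H62.AV

open Set Filter Topology MvPolynomial
open Pool.Agent.TH729.CV (IA FA)

/-- the triple `(x, y, z)` -/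
def tr {R : Type*} {N : ℕ} (x y z : Fin N → R) : Fin 3 × Fin N → R := fun s => ![x, y, z] s.1 s.2

/-- `u`, `v` are different from zero and proportional -/
def Same {R : Type*} [Field R] {N : ℕ} (u v : Fin N → R) : Prop :=
  u ≠ 0 ∧ v ≠ 0 ∧ ∃ c : R, u = c • v

/-- `f (c x) = c ^ e f x` -/
def EH {K : Type*} [Field K] {N : ℕ} (f : MvPolynomial (Fin N) K) (e : ℕ) : Prop :=
  ∀ (c : K) (x : Fin N → K), eval (c • x) f = c ^ e * eval x f

section same

variable {R : Type*} [Field R] {N : ℕ} {u v w : Fin N → R}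

lemma Same.c_ne {c : R} (hu : u ≠ 0) (h : u = c • v) : c ≠ 0 := by
  rintro rfl
  exact hu (by rw [h, zero_smul])

lemma Same.refl (hu : u ≠ 0) : Same u u := ⟨hu, hu, 1, (one_smul _ _).symm⟩

lemma Same.symm (h : Same u v) : Same v u := by
  obtain ⟨h1, h2, c, h3⟩ := h
  have hc := Same.c_ne h1 h3
  exact ⟨h2, h1, c⁻¹, by rw [h3, smul_smul, inv_mul_cancel₀ hc, one_smul]⟩

lemma Same.trans (h : Same u v) (h' : Same v w) : Same u w := by
  obtain ⟨h1, -, c, h3⟩ := h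
  obtain ⟨-, h2', c', h3'⟩ := h'
  exact ⟨h1, h2', c * c', by rw [h3, h3', smul_smul]⟩

lemma Same.smul {c : R} (hc : c ≠ 0) (hu : u ≠ 0) : Same (c • u) u :=
  ⟨smul_ne_zero hc hu, hu, c, rfl⟩

end same

variable {K L : Type*} [Field K] [NontriviallyNormedField L] {N : ℕ}

/-- the vector over `L` -/
def sv (σ : K →+* L) (y : Fin N → K) : Fin N → L := fun i => σ (y i)

lemma sv_smul (σ : K →+* L) (c : K) (y : Fin N → K) : sv σ (c • y) = σ c • sv σ y := by
  funext i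
  simp [sv]

lemma sv_ne {σ : K →+* L} {y : Fin N → K} (h : y ≠ 0) : sv σ y ≠ 0 := by
  intro h'
  apply h
  funext i
  have := congrFun h' i
  simpa [sv] using this

lemma eval_sv (σ : K →+* L) (f : MvPolynomial (Fin N) K) (y : Fin N → K) :
    eval₂ σ (sv σ y) f = σ (eval y f) := by
  have := eval₂_comp_left σ (RingHom.id K) y f
  rw [RingHom.comp_id] at this
  exact this.symm

lemma eval_tr (σ : K →+* L) (f : MvPolynomial (Fin 3 × Fin N) K) (x y z : Fin N → K) :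
    eval₂ σ (tr (sv σ x) (sv σ y) (sv σ z)) f = σ (eval (tr x y z) f) := by
  have := eval₂_comp_left σ (RingHom.id K) (tr x y z) f
  rw [RingHom.comp_id] at this
  have h2 : tr (sv σ x) (sv σ y) (sv σ z) = σ ∘ tr x y z := by
    funext ⟨i, j⟩
    fin_cases i <;> rfl
  rw [h2]
  exact this.symm

lemma cont_eval₂ {τ : Type*} (σ : K →+* L) (f : MvPolynomial τ K) :
    Continuous fun z : τ → L => eval₂ σ z f := by
  induction f using MvPolynomial.induction_on with
  | C a => simpa using continuous_const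
  | add p q hp hq =>
    simp only [eval₂_add]
    exact hp.add hq
  | mul_X p i hp =>
    simp only [eval₂_mul, eval₂_X]
    exact hp.mul (continuous_apply i)

lemma cont_tr : Continuous fun p : (Fin N → L) × (Fin N → L) × (Fin N → L) =>
    tr p.1 p.2.1 p.2.2 := by
  refine continuous_pi fun s => ?_
  obtain ⟨i, j⟩ := s
  fin_cases i
  · exact (continuous_apply j).comp continuous_fst
  · exact (continuous_apply j).comp (continuous_fst.comp continuous_snd)
  · exact (continuous_apply j).comp (continuous_snd.comp continuous_snd)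

/-- membership in a local ideal -/
lemma mem_IA' {σ : K →+* L} {D : Set (Fin N → K)} {x : Fin N → L} {f : MvPolynomial (Fin N) K} :
    f ∈ IA σ D x ↔ ∃ U : Set (Fin N → L), IsOpen U ∧ x ∈ U ∧
      ∀ y ∈ D, sv σ y ∈ U → eval y f = 0 := by
  change (∀ᶠ z in 𝓝 x, ∀ y ∈ D, (fun i => σ (y i)) = z → eval y f = 0) ↔ _
  rw [eventually_nhds_iff]
  constructor
  · rintro ⟨U, h1, h2, h3⟩
    exact ⟨U, h2, h3, fun y hy hyU => h1 _ hyU y hy rfl⟩
  · rintro ⟨U, h1, h2, h3⟩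
    refine ⟨U, fun z hz y hy hyz => h3 y hy ?_, h1, h2⟩
    change sv σ y = z at hyz
    rwa [hyz]

/-- the data of an operation like `x - y + z` on a projective set -/
structure Data (σ : K →+* L) (D : Set (Fin N → K))
    (t : (Fin N → K) → (Fin N → K) → (Fin N → K) → Fin N → K) {m : ℕ}
    (F : Fin m → Fin N → MvPolynomial (Fin 3 × Fin N) K) (d : Fin m → Fin 3 → ℕ) : Prop where
  ne_zero : ∀ x ∈ D, x ≠ 0
  smul : ∀ (c : K), c ≠ 0 → ∀ x ∈ D, c • x ∈ D
  hom : ∀ j i (a b c : K) (x y z : Fin N → K), eval (tr (a • x) (b • y) (c • z)) (F j i) =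
    a ^ d j 0 * b ^ d j 1 * c ^ d j 2 * eval (tr x y z) (F j i)
  mem : ∀ x ∈ D, ∀ y ∈ D, ∀ z ∈ D, t x y z ∈ D
  val : ∀ x ∈ D, ∀ y ∈ D, ∀ z ∈ D, ∀ j, (fun i => eval (tr x y z) (F j i)) ≠ 0 →
    Same (fun i => eval (tr x y z) (F j i)) (t x y z)
  defd : ∀ x ∈ closure (sv σ '' D), ∀ y ∈ closure (sv σ '' D), ∀ z ∈ closure (sv σ '' D),
    x ≠ 0 → y ≠ 0 → z ≠ 0 → ∃ j, (fun i => eval₂ σ (tr x y z) (F j i)) ≠ 0
  id1 : ∀ x ∈ D, ∀ z ∈ D, Same (t x x z) z
  id2 : ∀ x ∈ D, ∀ z ∈ D, Same (t x z z) x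
  assoc : ∀ x ∈ D, ∀ y ∈ D, ∀ z ∈ D, ∀ u ∈ D, ∀ v ∈ D,
    Same (t (t x y z) u v) (t x y (t z u v))

/-- the value of the system `F j` -/
noncomputable def vF {m : ℕ} (F : Fin m → Fin N → MvPolynomial (Fin 3 × Fin N) K) (j : Fin m)
    (x y z : Fin N → K) : Fin N → K := fun i => eval (tr x y z) (F j i)

lemma sv_vF (σ : K →+* L) {m : ℕ} (F : Fin m → Fin N → MvPolynomial (Fin 3 × Fin N) K) (j : Fin m)
    (x y z : Fin N → K) :
    sv σ (vF F j x y z) = fun i => eval₂ σ (tr (sv σ x) (sv σ y) (sv σ z)) (F j i) := by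
  funext i
  rw [eval_tr]
  rfl

section

variable {σ : K →+* L} {D : Set (Fin N → K)}
  {t : (Fin N → K) → (Fin N → K) → (Fin N → K) → Fin N → K} {m : ℕ}
  {F : Fin m → Fin N → MvPolynomial (Fin 3 × Fin N) K} {d : Fin m → Fin 3 → ℕ}

lemma Data.cl {y : Fin N → K} (hy : y ∈ D) : sv σ y ∈ closure (sv σ '' D) :=
  subset_closure ⟨y, hy, rfl⟩

lemma Data.ex (h : Data σ D t F d) {x y z : Fin N → K} (hx : x ∈ D) (hy : y ∈ D) (hz : z ∈ D) :
    ∃ j, vF F j x y z ≠ 0 := by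
  obtain ⟨j, hj⟩ := h.defd _ (Data.cl hx) _ (Data.cl hy) _ (Data.cl hz) (sv_ne (h.ne_zero x hx))
    (sv_ne (h.ne_zero y hy)) (sv_ne (h.ne_zero z hz))
  refine ⟨j, fun h0 => hj ?_⟩
  rw [← sv_vF, h0]
  funext i
  simp [sv]

lemma Data.memF (h : Data σ D t F d) {x y z : Fin N → K} (hx : x ∈ D) (hy : y ∈ D) (hz : z ∈ D)
    {j : Fin m} (hj : vF F j x y z ≠ 0) : vF F j x y z ∈ D := by
  obtain ⟨h1, h2, c, h3⟩ := h.val x hx y hy z hz j hj
  change vF F j x y z = _ at h3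
  rw [h3]
  exact h.smul c (Same.c_ne hj h3) _ (h.mem x hx y hy z hz)

lemma Data.vF_smul (h : Data σ D t F d) (j : Fin m) (a b c : K) (x y z : Fin N → K) :
    vF F j (a • x) (b • y) (c • z) = (a ^ d j 0 * b ^ d j 1 * c ^ d j 2) • vF F j x y z := by
  funext i
  exact h.hom j i a b c x y z

/-- the operation only depends on the points -/
lemma Data.congr (h : Data σ D t F d) {x y z x' y' z' : Fin N → K} (hx : x ∈ D) (hy : y ∈ D)
    (hz : z ∈ D) (hx' : x' ∈ D) (hy' : y' ∈ D) (hz' : z' ∈ D) (ex : Same x' x) (ey : Same y' y)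
    (ez : Same z' z) : Same (t x' y' z') (t x y z) := by
  obtain ⟨j, hj⟩ := h.ex hx hy hz
  obtain ⟨-, -, a, ha⟩ := ex
  obtain ⟨-, -, b, hb⟩ := ey
  obtain ⟨-, -, c, hc⟩ := ez
  have ha0 := Same.c_ne (h.ne_zero x' hx') ha
  have hb0 := Same.c_ne (h.ne_zero y' hy') hb
  have hc0 := Same.c_ne (h.ne_zero z' hz') hc
  have h1 : vF F j x' y' z' = (a ^ d j 0 * b ^ d j 1 * c ^ d j 2) • vF F j x y z := by
    rw [ha, hb, hc, h.vF_smul]
  have h2 : (a ^ d j 0 * b ^ d j 1 * c ^ d j 2) ≠ 0 := by positivity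
  have h3 : vF F j x' y' z' ≠ 0 := by
    rw [h1]
    exact smul_ne_zero h2 hj
  have h4 := h.val x' hx' y' hy' z' hz' j h3
  have h5 := h.val x hx y hy z hz j hj
  exact (h4.symm.trans ⟨h3, hj, _, h1⟩).trans h5

end

end Pool.Agent.J4H62.AV
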