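import Pool.Agent.J4H62.AV.Main

/-!
# Finiteness of the set of local ideals (helper62)
-/

set_option autoImplicit false
set_option linter.unusedSectionVars false

namespace Pool.Agent.J4H62.AV

open Set Filter Topology MvPolynomial
open Pool.Agent.TH729.CV (IA FA)

variable {K L : Type*} [Field K] [NontriviallyNormedField L] {N : ℕ}

variable {σ : K →+* L} {D : Set (Fin N → K)}
  {t : (Fin N → K) → (Fin N → K) → (Fin N → K) → Fin N → K} {m : ℕ}
  {F : Fin m → Fin N → MvPolynomial (Fin 3 × Fin N) K} {d : Fin m → Fin 3 → ℕ}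

lemma IA_stab' (σ : K →+* L) (D : Set (Fin N → K)) (x : Fin N → L) :
    ∃ U : Set (Fin N → L), IsOpen U ∧ x ∈ U ∧ ∀ y ∈ D, sv σ y ∈ U → ∀ f ∈ IA σ D x,
      eval y f = 0 := by
  obtain ⟨G, hG⟩ := (IsNoetherian.noetherian (IA σ D x) : (IA σ D x).FG)
  have h1 : ∀ g ∈ G, ∃ U : Set (Fin N → L), IsOpen U ∧ x ∈ U ∧
      ∀ y ∈ D, sv σ y ∈ U → eval y g = 0 := by
    intro g hg
    have : g ∈ IA σ D x := by
      rw [← hG]
      exact Submodule.subset_span hg
    exact mem_IA'.1 this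
  choose! U hU1 hU2 hU3 using h1
  refine ⟨⋂ g ∈ G, U g, isOpen_biInter_finset hU1, by simpa using hU2, fun y hy hyU f hf => ?_⟩
  rw [← hG] at hf
  refine Submodule.span_induction (p := fun f _ => eval y f = 0)
    (fun g hg => hU3 g hg y hy (by
      have := mem_iInter₂.1 hyU g hg
      exact this)) (map_zero _) ?_ ?_ hf
  · intro f g _ _ h1 h2
    rw [map_add, h1, h2, add_zero]
  · intro c f _ h1
    rw [smul_eq_mul, map_mul, h1, mul_zero]

/-- the local ideal is constant on `D` near a point of `D` -/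
lemma near_D (h : Data σ D t F d) (hσ : DenseRange σ) {P : Fin N → K} (hP : P ∈ D) :
    ∃ U : Set (Fin N → L), IsOpen U ∧ sv σ P ∈ U ∧ ∀ Q ∈ D, sv σ Q ∈ U →
      IA σ D (sv σ Q) = IA σ D (sv σ P) := by
  obtain ⟨U, hU, hxU, hUf⟩ := IA_stab' σ D (sv σ P)
  refine ⟨U, hU, hxU, fun Q hQ hQU => ?_⟩
  refine (chain h hσ hP hQ ?_).symm
  intro f hf
  rw [mem_IA']
  exact ⟨U, hU, hQU, fun y hy hyU => hUf y hy hyU f hf⟩

/-- the local ideal is constant on `D` near a point of the closure -/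
lemma near_cl (h : Data σ D t F d) (hσ : DenseRange σ) {x : Fin N → L} (hx0 : x ≠ 0)
    (hx : x ∈ closure (sv σ '' D)) :
    ∃ U : Set (Fin N → L), IsOpen U ∧ x ∈ U ∧ ∀ P ∈ D, sv σ P ∈ U → ∀ Q ∈ D, sv σ Q ∈ U →
      IA σ D (sv σ P) = IA σ D (sv σ Q) := by
  obtain ⟨-, ⟨P₀, hP₀, rfl⟩⟩ := closure_nonempty_iff.1 ⟨x, hx⟩
  obtain ⟨U₀, hU₀, hxU₀, hUf₀⟩ := near_D h hσ hP₀
  obtain ⟨j, hj⟩ := h.defd x hx x hx (sv σ P₀) (Data.cl hP₀) hx0 hx0 (sv_ne (h.ne_zero _ hP₀))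
  set v : Fin N → L := fun i => eval₂ σ (tr x x (sv σ P₀)) (F j i) with hv
  -- the continuous map
  have hc : Continuous fun p : (Fin N → L) × (Fin N → L) =>
      (fun i => eval₂ σ (tr p.1 p.2 (sv σ P₀)) (F j i) : Fin N → L) :=
    (cont_F σ F j).comp (continuous_fst.prodMk (continuous_snd.prodMk continuous_const))
  -- `v` is a multiple of `P₀`
  have hvP : ∃ c : L, v = c • sv σ P₀ := by
    have hcl : IsClosed {w : Fin N → L | ∃ c : L, w = c • sv σ P₀} := by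
      have : {w : Fin N → L | ∃ c : L, w = c • sv σ P₀} =
          {w | ∀ i k, w i * sv σ P₀ k = w k * sv σ P₀ i} := by
        ext w
        constructor
        · rintro ⟨c, rfl⟩ i k
          simp only [Pi.smul_apply, smul_eq_mul]
          ring
        · intro hw
          obtain ⟨k, hk⟩ : ∃ k, sv σ P₀ k ≠ 0 := by
            by_contra hcon
            push Not at hcon
            exact sv_ne (h.ne_zero _ hP₀) (funext hcon)
          refine ⟨w k / sv σ P₀ k, funext fun i => ?_⟩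
          rw [Pi.smul_apply, smul_eq_mul, div_mul_eq_mul_div, eq_div_iff hk]
          exact hw i k
      rw [this]
      simp only [ofPred_forall]
      exact isClosed_iInter fun i => isClosed_iInter fun k => isClosed_eq
        ((continuous_apply i).mul continuous_const) ((continuous_apply k).mul continuous_const)
    have hdiag : Continuous fun z : Fin N → L =>
        (fun i => eval₂ σ (tr z z (sv σ P₀)) (F j i) : Fin N → L) :=
      hc.comp (continuous_id.prodMk continuous_id)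
    have h1 : x ∈ (fun z : Fin N → L =>
        (fun i => eval₂ σ (tr z z (sv σ P₀)) (F j i) : Fin N → L)) ⁻¹'
          {w | ∃ c : L, w = c • sv σ P₀} := by
      refine (hcl.preimage hdiag).closure_subset_iff.2 ?_ hx
      rintro _ ⟨P, hP, rfl⟩
      change ∃ c : L, (fun i => eval₂ σ (tr (sv σ P) (sv σ P) (sv σ P₀)) (F j i) : Fin N → L) =
        c • sv σ P₀
      rw [← sv_vF]
      by_cases h0 : vF F j P P P₀ = 0
      · refine ⟨0, ?_⟩
        rw [h0, zero_smul]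
        funext i
        simp [sv]
      · obtain ⟨-, -, c, hc⟩ := (h.val P hP P hP P₀ hP₀ j h0).trans (h.id1 P hP P₀ hP₀)
        change vF F j P P P₀ = _ at hc
        exact ⟨σ c, by rw [hc, sv_smul]⟩
    exact h1
  obtain ⟨c, hcv⟩ := hvP
  have hc0 : c ≠ 0 := Same.c_ne hj hcv
  -- a scalar in `K` near `c`
  have hopen : IsOpen {a : L | a ≠ 0 ∧ a⁻¹ • v ∈ U₀} := by
    have h2 : ContinuousOn (fun a : L => a⁻¹ • v) {a | a ≠ 0} :=
      (continuousOn_inv₀ (G₀ := L)).smul continuousOn_const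
    exact h2.isOpen_inter_preimage isOpen_ne hU₀
  obtain ⟨a, ha0, ha⟩ := ex_near hσ hopen (c := c)
    ⟨hc0, by rw [hcv, smul_smul, inv_mul_cancel₀ hc0, one_smul]; exact hxU₀⟩ hc0
  -- the neighbourhood
  set W : Set ((Fin N → L) × (Fin N → L)) := (fun p : (Fin N → L) × (Fin N → L) =>
      (fun i => eval₂ σ (tr p.1 p.2 (sv σ P₀)) (F j i) : Fin N → L)) ⁻¹'
        (((fun w => (σ a)⁻¹ • w) ⁻¹' U₀) ∩ {0}ᶜ) with hW
  have hWo : IsOpen W :=
    ((hU₀.preimage (continuous_const_smul _)).inter isOpen_compl_singleton).preimage hc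
  have hxW : (x, x) ∈ W := ⟨ha.2, hj⟩
  obtain ⟨A, B, hA, hB, hxA, hxB, hAB⟩ := isOpen_prod_iff.1 hWo x x hxW
  refine ⟨A ∩ B, hA.inter hB, ⟨hxA, hxB⟩, fun P hP hPU Q hQ hQU => ?_⟩
  have hPQ : (sv σ P, sv σ Q) ∈ W := hAB ⟨hPU.1, hQU.2⟩
  obtain ⟨h1, h2⟩ := hPQ
  change (σ a)⁻¹ • (fun i => eval₂ σ (tr (sv σ P) (sv σ Q) (sv σ P₀)) (F j i) : Fin N → L) ∈ U₀
    at h1
  change ¬ (fun i => eval₂ σ (tr (sv σ P) (sv σ Q) (sv σ P₀)) (F j i) : Fin N → L) = 0 at h2
  rw [← sv_vF] at h1 h2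
  have h3 : vF F j P Q P₀ ≠ 0 := by
    intro h0
    apply h2
    rw [h0]
    funext i
    simp [sv]
  have h4 := h.memF hP hQ hP₀ h3
  have h5 : IA σ D (sv σ (t P Q P₀)) = IA σ D (sv σ P₀) := by
    rw [← IA_same h.smul hσ (h.val P hP Q hQ P₀ hP₀ j h3)]
    have h6 := hUf₀ (a⁻¹ • vF F j P Q P₀) (h.smul _ (inv_ne_zero ha0) _ h4) (by
      rw [sv_smul, map_inv₀]
      exact h1)
    rw [← h6]
    exact IA_same h.smul hσ (Same.smul (inv_ne_zero ha0) h3).symm
  -- transport by `(P₀, Q)`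
  have hT := h.mem P hP Q hQ P₀ hP₀
  have e1 : Same (t (t P Q P₀) P₀ Q) P := by
    have e2 := h.assoc P hP Q hQ P₀ hP₀ P₀ hP₀ Q hQ
    have e4 : Same (t P Q (t P₀ P₀ Q)) (t P Q Q) :=
      h.congr hP hQ hQ hP hQ (h.mem P₀ hP₀ P₀ hP₀ Q hQ)
        (Same.refl (h.ne_zero _ hP)) (Same.refl (h.ne_zero _ hQ)) (h.id1 P₀ hP₀ Q hQ)
    exact (e2.trans e4).trans (h.id2 P hP Q hQ)
  have e2 : Same (t P₀ P₀ Q) Q := h.id1 P₀ hP₀ Q hQ
  refine le_antisymm ?_ ?_
  · have := transport h hσ hT hP₀ hP₀ hQ h5.le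
    rwa [IA_same h.smul hσ e1, IA_same h.smul hσ e2] at this
  · have := transport h hσ hP₀ hT hP₀ hQ h5.ge
    rwa [IA_same h.smul hσ e1, IA_same h.smul hσ e2] at this

/-- the local ideal at a point of the closure is the local ideal at points of `D` -/
lemma IA_cl (h : Data σ D t F d) (hσ : DenseRange σ) {x : Fin N → L} (hx0 : x ≠ 0)
    (hx : x ∈ closure (sv σ '' D)) : ∃ P ∈ D, IA σ D x = IA σ D (sv σ P) := by
  obtain ⟨U, hU, hxU, hUP⟩ := near_cl h hσ hx0 hx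
  obtain ⟨-, hz, P, hP, rfl⟩ := mem_closure_iff.1 hx U hU hxU
  refine ⟨P, hP, le_antisymm ?_ ?_⟩
  · intro f hf
    obtain ⟨V, hV, hxV, hVf⟩ := mem_IA'.1 hf
    obtain ⟨-, hz', Q, hQ, rfl⟩ := mem_closure_iff.1 hx (U ∩ V) (hU.inter hV) ⟨hxU, hxV⟩
    rw [hUP P hP hz Q hQ hz'.1, mem_IA']
    exact ⟨V, hV, hz'.2, hVf⟩
  · intro f hf
    rw [mem_IA']
    refine ⟨U, hU, hxU, fun y hy hyU => ?_⟩
    rw [hUP P hP hz y hy hyU] at hf
    obtain ⟨V, hV, hxV, hVf⟩ := mem_IA'.1 hf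
    exact hVf y hy hxV

/-- **finitely many local ideals** -/
theorem FA_of_data [ProperSpace L] (h : Data σ D t F d) (hσ : DenseRange σ) : FA σ D := by
  -- scalars
  obtain ⟨c, hc⟩ := NormedField.exists_one_lt_norm L
  set A : Set (Fin N → L) := {x | 1 / 2 ≤ ‖x‖ ∧ ‖x‖ ≤ ‖c‖ + 1} with hA
  have hAc : IsCompact A := by
    have h1 : A = Metric.closedBall 0 (‖c‖ + 1) ∩ {x | 1 / 2 ≤ ‖x‖} := by
      ext x
      simp only [hA, mem_ofPred_eq, mem_inter_iff, Metric.mem_closedBall, dist_zero_right]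
      tauto
    rw [h1]
    exact (isCompact_closedBall _ _).inter_right (isClosed_le continuous_const continuous_norm)
  -- the local ideals at points of `A`
  have hloc : ∀ x ∈ A, ∃ U : Set (Fin N → L), IsOpen U ∧ x ∈ U ∧
      ∃ I : Ideal (MvPolynomial (Fin N) K), ∀ P ∈ D, sv σ P ∈ U → IA σ D (sv σ P) = I := by
    intro x hx
    have hx0 : x ≠ 0 := by
      rintro rfl
      have := hx.1
      rw [norm_zero] at this
      linarith
    by_cases hcl : x ∈ closure (sv σ '' D)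
    · obtain ⟨U, hU, hxU, hUP⟩ := near_cl h hσ hx0 hcl
      obtain ⟨-, hz, P, hP, rfl⟩ := mem_closure_iff.1 hcl U hU hxU
      exact ⟨U, hU, hxU, _, fun Q hQ hQU => hUP Q hQ hQU P hP hz⟩
    · exact ⟨(closure (sv σ '' D))ᶜ, isClosed_closure.isOpen_compl, hcl, ⊤,
        fun P hP hPU => absurd (Data.cl hP) hPU⟩
  choose! U hU1 hU2 I hI using hloc
  obtain ⟨s, hs⟩ := hAc.elim_nhds_subcover' (fun x _ => U x)
    (fun x hx => (hU1 x hx).mem_nhds (hU2 x hx))
  -- all the ideals at points of `D`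
  have hfin : {J | ∃ P ∈ D, J = IA σ D (sv σ P)} ⊆ (fun x : A => I x) '' (s : Set A) := by
    rintro _ ⟨P, hP, rfl⟩
    -- scale `P` into `A`
    have hP0 : sv σ P ≠ 0 := sv_ne (h.ne_zero P hP)
    obtain ⟨n, hn1, hn2⟩ := exists_mem_Ico_zpow (norm_pos_iff.2 hP0) hc
    have hc0 : c ≠ 0 := norm_pos_iff.1 (by linarith)
    have hpos : 0 < ‖c‖ ^ n := zpow_pos (by linarith) n
    have hopen : IsOpen {z : L | 1 / 2 < ‖z • sv σ P‖ ∧ ‖z • sv σ P‖ < ‖c‖ + 1} := by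
      have h1 : Continuous fun z : L => ‖z • sv σ P‖ :=
        (continuous_id.smul continuous_const).norm
      exact (isOpen_lt continuous_const h1).inter (isOpen_lt h1 continuous_const)
    have hmem : c ^ (-n) ∈ {z : L | 1 / 2 < ‖z • sv σ P‖ ∧ ‖z • sv σ P‖ < ‖c‖ + 1} := by
      have e : ‖c ^ (-n) • sv σ P‖ = ‖sv σ P‖ / ‖c‖ ^ n := by
        rw [norm_smul, norm_zpow, zpow_neg, ← div_eq_inv_mul]
      constructor
      · rw [e, lt_div_iff₀ hpos]
        linarith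
      · rw [e, div_lt_iff₀ hpos]
        calc ‖sv σ P‖ < ‖c‖ ^ (n + 1) := hn2
          _ = ‖c‖ * ‖c‖ ^ n := by rw [zpow_add₀ (by linarith), zpow_one, mul_comm]
          _ ≤ (‖c‖ + 1) * ‖c‖ ^ n := mul_le_mul_of_nonneg_right (by linarith) hpos.le
    obtain ⟨a, ha0, ha⟩ := ex_near hσ hopen hmem (zpow_ne_zero _ hc0)
    have haA : sv σ (a • P) ∈ A := by
      rw [sv_smul]
      exact ⟨ha.1.le, ha.2.le⟩
    obtain ⟨x, hx⟩ := mem_iUnion.1 (hs haA)
    obtain ⟨hxs, hxU⟩ := mem_iUnion.1 hx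
    refine ⟨x, hxs, ?_⟩
    have h1 := hI x x.2 (a • P) (h.smul a ha0 P hP) hxU
    rw [← IA_same h.smul hσ (Same.smul ha0 (h.ne_zero P hP))]
    exact h1.symm
  have hfin2 := ((s.finite_toSet.image fun x : A => I x).subset hfin)
  -- all points
  refine (hfin2.union ((finite_singleton (IA σ D (0 : Fin N → L))).union
    (finite_singleton (⊤ : Ideal (MvPolynomial (Fin N) K))))).subset ?_
  rintro _ ⟨x, rfl⟩
  by_cases hx0 : x = 0
  · subst hx0
    exact Or.inr (Or.inl rfl)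
  · by_cases hcl : x ∈ closure (sv σ '' D)
    · obtain ⟨P, hP, hPx⟩ := IA_cl h hσ hx0 hcl
      exact Or.inl ⟨P, hP, hPx⟩
    · refine Or.inr (Or.inr ?_)
      change IA σ D x = ⊤
      rw [Ideal.eq_top_iff_one, mem_IA']
      exact ⟨(closure (sv σ '' D))ᶜ, isClosed_closure.isOpen_compl, hcl,
        fun y hy hyU => absurd (Data.cl hy) hyU⟩

end Pool.Agent.J4H62.AV
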