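import Pool.Agent.J4H62.AV.Basic

/-!
# Cosets of subgroups of abelian varieties: the local ideals (helper62)
-/

set_option autoImplicit false
set_option linter.unusedSectionVars false

namespace Pool.Agent.J4H62.AV

open Set Filter Topology MvPolynomial
open Pool.Agent.TH729.CV (IA FA)

variable {K L : Type*} [Field K] [NontriviallyNormedField L] {N : ℕ}

lemma isHomogeneous_EH {f : MvPolynomial (Fin N) K} {e : ℕ} (h : f.IsHomogeneous e) : EH f e := by
  intro c x
  rw [eval_eq, eval_eq, Finset.mul_sum]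
  refine Finset.sum_congr rfl fun s hs => ?_
  have h1 : s.degree = e := by
    have := h (mem_support_iff.1 hs)
    rw [Finsupp.degree_eq_weight_one]
    exact this
  simp only [Pi.smul_apply, smul_eq_mul, mul_pow, Finset.prod_mul_distrib]
  rw [Finset.prod_pow_eq_pow_sum]
  have h2 : ∑ i ∈ s.support, s i = e := by rw [← h1]; rfl
  rw [h2]
  ring

variable {σ : K →+* L} {D : Set (Fin N → K)}
  {t : (Fin N → K) → (Fin N → K) → (Fin N → K) → Fin N → K} {m : ℕ}
  {F : Fin m → Fin N → MvPolynomial (Fin 3 × Fin N) K} {d : Fin m → Fin 3 → ℕ}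

/-- an element of `K` near an element of `L` -/
lemma ex_near (hσ : DenseRange σ) {U : Set L} (hU : IsOpen U) {c : L} (hc : c ∈ U) (h0 : c ≠ 0) :
    ∃ a : K, a ≠ 0 ∧ σ a ∈ U := by
  have h1 : IsOpen (U ∩ {z | z ≠ 0}) := hU.inter isOpen_ne
  obtain ⟨a, ha1, ha2⟩ := hσ.exists_mem_open h1 ⟨c, hc, h0⟩
  exact ⟨a, fun h => ha2 (by rw [h, map_zero]), ha1⟩

/-- local ideals do not change under scaling -/
lemma IA_scale (hD : ∀ (c : K), c ≠ 0 → ∀ x ∈ D, c • x ∈ D) (hσ : DenseRange σ)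
    {f : MvPolynomial (Fin N) K} {e : ℕ}
    (hf : EH f e) {x : Fin N → L} {c : L} (hc : c ≠ 0) (h : f ∈ IA σ D x) :
    f ∈ IA σ D (c • x) := by
  obtain ⟨U, hU, hxU, hUf⟩ := mem_IA'.1 h
  have h1 : IsOpen {a : L | a ≠ 0 ∧ a⁻¹ • (c • x) ∈ U} := by
    have h2 : ContinuousOn (fun a : L => a⁻¹ • (c • x)) {a | a ≠ 0} :=
      (continuousOn_inv₀ (G₀ := L)).smul continuousOn_const
    have := h2.isOpen_inter_preimage isOpen_ne hU
    exact this
  have h2 : c ∈ {a : L | a ≠ 0 ∧ a⁻¹ • (c • x) ∈ U} :=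
    ⟨hc, by rw [smul_smul, inv_mul_cancel₀ hc, one_smul]; exact hxU⟩
  obtain ⟨a, ha0, ha⟩ := ex_near hσ h1 h2 hc
  have hσa : σ a ≠ 0 := ha.1
  rw [mem_IA']
  refine ⟨(fun z => (σ a)⁻¹ • z) ⁻¹' U, hU.preimage (continuous_const_smul _), ha.2, ?_⟩
  intro y hy hyU
  have h3 := hUf (a⁻¹ • y) (hD _ (inv_ne_zero ha0) y hy) (by
    rw [sv_smul, map_inv₀]
    exact hyU)
  rw [hf] at h3
  rcases mul_eq_zero.1 h3 with h4 | h4
  · exact absurd h4 (pow_ne_zero e (inv_ne_zero ha0))
  · exact h4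

/-- homogeneous components -/
lemma IA_comp (hD : ∀ (c : K), c ≠ 0 → ∀ x ∈ D, c • x ∈ D) (hσ : DenseRange σ)
    {f : MvPolynomial (Fin N) K} {x : Fin N → L} (h : f ∈ IA σ D x) (e : ℕ) :
    homogeneousComponent e f ∈ IA σ D x := by
  obtain ⟨U, hU, hxU, hUf⟩ := mem_IA'.1 h
  rw [mem_IA']
  refine ⟨U, hU, hxU, fun y hy hyU => ?_⟩
  set g : Polynomial K := ∑ i ∈ Finset.range (f.totalDegree + 1),
    Polynomial.C (eval y (homogeneousComponent i f)) * Polynomial.X ^ i with hg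
  have hge : ∀ c : K, g.eval c = eval (c • y) f := by
    intro c
    conv_rhs => rw [← sum_homogeneousComponent f]
    rw [hg, Polynomial.eval_finsetSum, map_sum]
    refine Finset.sum_congr rfl fun i _ => ?_
    rw [Polynomial.eval_mul, Polynomial.eval_C, Polynomial.eval_pow, Polynomial.eval_X,
      isHomogeneous_EH (homogeneousComponent_isHomogeneous i f) c y, mul_comm]
  -- the scalars near one
  set V : Set L := {a : L | a • sv σ y ∈ U} ∩ {a | a ≠ 0} with hV
  have hVo : IsOpen V := (hU.preimage (continuous_id.smul continuous_const)).inter isOpen_ne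
  have h1V : (1 : L) ∈ V := ⟨by
    change (1 : L) • sv σ y ∈ U
    rw [one_smul]; exact hyU, one_ne_zero⟩
  have hroot : ∀ a : K, σ a ∈ V → g.eval a = 0 := by
    intro a ha
    have ha0 : a ≠ 0 := fun h => ha.2 (by rw [h, map_zero])
    rw [hge]
    refine hUf _ (hD a ha0 y hy) ?_
    rw [sv_smul]
    exact ha.1
  have hcl : V ⊆ {z | (g.map σ).IsRoot z} := by
    intro z hz
    have h2 : IsClosed {z : L | (g.map σ).eval z = 0} :=
      isClosed_eq (g.map σ).continuous continuous_const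
    by_contra hcon
    have h3 : IsOpen (V ∩ {z : L | (g.map σ).eval z = 0}ᶜ) := hVo.inter h2.isOpen_compl
    obtain ⟨a, ha⟩ := hσ.exists_mem_open h3 ⟨z, hz, hcon⟩
    apply ha.2
    change (g.map σ).eval (σ a) = 0
    rw [Polynomial.eval_map, Polynomial.eval₂_at_apply, hroot a ha.1, map_zero]
  have hinf : V.Infinite := infinite_of_mem_nhds 1 (hVo.mem_nhds h1V)
  have hg0 : g.map σ = 0 := Polynomial.eq_zero_of_infinite_isRoot _ (hinf.mono hcl)
  have hg1 : g = 0 := (Polynomial.map_eq_zero σ).1 hg0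
  by_cases he : e ∈ Finset.range (f.totalDegree + 1)
  · have h4 : g.coeff e = eval y (homogeneousComponent e f) := by
      rw [hg, Polynomial.finsetSum_coeff]
      simp only [Polynomial.coeff_C_mul, Polynomial.coeff_X_pow, mul_ite, mul_one, mul_zero]
      rw [Finset.sum_ite_eq, if_pos he]
    rw [← h4, hg1, Polynomial.coeff_zero]
  · rw [homogeneousComponent_eq_zero _ _ (by
      rw [Finset.mem_range] at he; omega), map_zero]

/-- comparison on homogeneous polynomials -/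
lemma IA_le_of (hD : ∀ (c : K), c ≠ 0 → ∀ x ∈ D, c • x ∈ D) (hσ : DenseRange σ)
    {x x' : Fin N → L} (h : ∀ (f : MvPolynomial (Fin N) K) (e : ℕ), EH f e → f ∈ IA σ D x →
      f ∈ IA σ D x') : IA σ D x ≤ IA σ D x' := by
  intro f hf
  rw [← sum_homogeneousComponent f]
  exact Ideal.sum_mem _ fun i _ => h _ i
    (isHomogeneous_EH (homogeneousComponent_isHomogeneous i f)) (IA_comp hD hσ hf i)

lemma IA_scale_le (hD : ∀ (c : K), c ≠ 0 → ∀ x ∈ D, c • x ∈ D) (hσ : DenseRange σ)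
    {x : Fin N → L} {c : L} (hc : c ≠ 0) : IA σ D x ≤ IA σ D (c • x) :=
  IA_le_of hD hσ fun _ _ he h => IA_scale hD hσ he hc h

lemma IA_scale_eq (hD : ∀ (c : K), c ≠ 0 → ∀ x ∈ D, c • x ∈ D) (hσ : DenseRange σ)
    {x : Fin N → L} {c : L} (hc : c ≠ 0) : IA σ D (c • x) = IA σ D x := by
  refine le_antisymm ?_ (IA_scale_le hD hσ hc)
  have := IA_scale_le (x := c • x) hD hσ (inv_ne_zero hc)
  rwa [smul_smul, inv_mul_cancel₀ hc, one_smul] at this

lemma IA_same (hD : ∀ (c : K), c ≠ 0 → ∀ x ∈ D, c • x ∈ D) (hσ : DenseRange σ)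
    {y y' : Fin N → K} (h : Same y y') : IA σ D (sv σ y) = IA σ D (sv σ y') := by
  obtain ⟨h1, -, c, h3⟩ := h
  rw [h3, sv_smul]
  exact IA_scale_eq hD hσ ((map_ne_zero σ).2 (Same.c_ne h1 h3))

/-- the polynomial `f (F j (X, a, b))` -/
noncomputable def comp (F : Fin m → Fin N → MvPolynomial (Fin 3 × Fin N) K) (j : Fin m)
    (a b : Fin N → K) (f : MvPolynomial (Fin N) K) : MvPolynomial (Fin N) K :=
  aeval (fun i => aeval (fun s : Fin 3 × Fin N =>
    (if s.1 = 0 then X s.2 else C (tr 0 a b s) : MvPolynomial (Fin N) K)) (F j i)) f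

lemma eval_comp (j : Fin m) (a b : Fin N → K) (f : MvPolynomial (Fin N) K) (x : Fin N → K) :
    eval x (comp F j a b f) = eval (vF F j x a b) f := by
  have h1 : ∀ {τ : Type} (w : τ → MvPolynomial (Fin N) K) (g : MvPolynomial τ K),
      eval x (aeval w g) = eval (fun i => eval x (w i)) g := by
    intro τ w g
    rw [aeval_def, eval₂_comp_left (eval x)]
    have : (eval x).comp (algebraMap K (MvPolynomial (Fin N) K)) = RingHom.id K := by
      ext a
      simp
    rw [this]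
    rfl
  unfold comp
  rw [h1]
  congr 2
  funext i
  rw [h1]
  unfold vF
  congr 2
  funext s
  obtain ⟨i, k⟩ := s
  fin_cases i
  · simp [tr]
  · simp [tr]
  · simp [tr]

lemma EH_comp (h : Data σ D t F d) (j : Fin m) (a b : Fin N → K) {f : MvPolynomial (Fin N) K}
    {e : ℕ} (hf : EH f e) : EH (comp F j a b f) (d j 0 * e) := by
  intro c x
  rw [eval_comp, eval_comp]
  have h1 := h.vF_smul j c 1 1 x a b
  rw [one_smul, one_smul, one_pow, one_pow, mul_one, mul_one] at h1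
  rw [h1, hf, pow_mul]

end Pool.Agent.J4H62.AV
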