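import Pool.Agent.J4H62.AV.Loc

/-!
# Cosets of subgroups of abelian varieties have finitely many local ideals (helper62)
-/

set_option autoImplicit false
set_option linter.unusedSectionVars false

namespace Pool.Agent.J4H62.AV

open Set Filter Topology MvPolynomial
open Pool.Agent.TH729.CV (IA FA)

variable {K L : Type*} [Field K] [NontriviallyNormedField L] {N : ℕ}

variable {σ : K →+* L} {D : Set (Fin N → K)}
  {t : (Fin N → K) → (Fin N → K) → (Fin N → K) → Fin N → K} {m : ℕ}
  {F : Fin m → Fin N → MvPolynomial (Fin 3 × Fin N) K} {d : Fin m → Fin 3 → ℕ}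

lemma cont_F (σ : K →+* L) (F : Fin m → Fin N → MvPolynomial (Fin 3 × Fin N) K) (j : Fin m) :
    Continuous fun p : (Fin N → L) × (Fin N → L) × (Fin N → L) =>
      (fun i => eval₂ σ (tr p.1 p.2.1 p.2.2) (F j i) : Fin N → L) :=
  continuous_pi fun i => (cont_eval₂ σ (F j i)).comp cont_tr

/-- **transport by translations** -/
lemma transport (h : Data σ D t F d) (hσ : DenseRange σ) {P Q a b : Fin N → K} (hP : P ∈ D)
    (hQ : Q ∈ D) (ha : a ∈ D) (hb : b ∈ D) (hle : IA σ D (sv σ P) ≤ IA σ D (sv σ Q)) :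
    IA σ D (sv σ (t P a b)) ≤ IA σ D (sv σ (t Q a b)) := by
  refine IA_le_of h.smul hσ fun f e he hf => ?_
  have hPab := h.mem P hP a ha b hb
  have hQab := h.mem Q hQ a ha b hb
  -- `f` vanishes on all composed points near `P`
  obtain ⟨j, hj⟩ := h.ex hP ha hb
  have h1 : f ∈ IA σ D (sv σ (vF F j P a b)) := by
    obtain ⟨h1, -, c, h3⟩ := h.val P hP a ha b hb j hj
    change vF F j P a b = _ at h3
    have hc := Same.c_ne h1 h3
    rw [h3, sv_smul]
    exact IA_scale h.smul hσ he ((map_ne_zero σ).2 hc) hf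
  obtain ⟨U, hU, hxU, hUf⟩ := mem_IA'.1 h1
  -- degree zero
  by_cases he0 : e = 0
  · subst he0
    have h2 : f = 0 ∨ ∃ x : Fin N → K, eval x f ≠ 0 := by
      by_cases h3 : ∃ x : Fin N → K, eval x f ≠ 0
      · exact Or.inr h3
      · left
        push Not at h3
        have : Infinite K := by
          by_contra hfin
          rw [not_infinite_iff_finite] at hfin
          have h4 : (Set.range σ).Finite := Set.finite_range σ
          have h5 : Set.range σ = Set.univ := by
            rw [← h4.isClosed.closure_eq]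
            exact hσ.closure_range
          rw [h5] at h4
          have h6 : (Set.univ : Set L).Infinite := infinite_of_mem_nhds (1 : L) univ_mem
          exact h6 h4
        exact MvPolynomial.funext fun x => by rw [h3 x, map_zero]
    rcases h2 with h2 | ⟨x, hx⟩
    · rw [h2]
      exact Ideal.zero_mem _
    · exfalso
      have h3 : ∀ y : Fin N → K, eval y f = eval 0 f := by
        intro y
        have := he 0 y
        rw [zero_smul, pow_zero, one_mul] at this
        exact this.symm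
      have h4 := hUf (vF F j P a b) (h.memF hP ha hb hj) hxU
      rw [h3] at h4
      rw [h3] at hx
      exact hx h4
  have hzero : eval (0 : Fin N → K) f = 0 := by
    have := he 0 0
    rw [zero_smul, zero_pow he0, zero_mul] at this
    exact this
  have hcomp : ∀ j', comp F j' a b f ∈ IA σ D (sv σ P) := by
    intro j'
    rw [mem_IA']
    have hc : Continuous fun z : Fin N → L =>
        (fun i => eval₂ σ (tr z (sv σ a) (sv σ b)) (F j i) : Fin N → L) :=
      (cont_F σ F j).comp (continuous_id.prodMk (continuous_const.prodMk continuous_const))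
    refine ⟨(fun z : Fin N → L =>
        (fun i => eval₂ σ (tr z (sv σ a) (sv σ b)) (F j i) : Fin N → L)) ⁻¹' (U ∩ {0}ᶜ),
      (hU.inter isOpen_compl_singleton).preimage hc, ⟨?_, ?_⟩, ?_⟩
    · change (fun i => eval₂ σ (tr (sv σ P) (sv σ a) (sv σ b)) (F j i) : Fin N → L) ∈ U
      rw [← sv_vF]
      exact hxU
    · change ¬ (fun i => eval₂ σ (tr (sv σ P) (sv σ a) (sv σ b)) (F j i) : Fin N → L) = 0
      rw [← sv_vF]
      exact sv_ne hj
    · intro y hy hyU
      obtain ⟨hy1, hy2⟩ := hyU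
      change (fun i => eval₂ σ (tr (sv σ y) (sv σ a) (sv σ b)) (F j i) : Fin N → L) ∈ U at hy1
      change ¬ (fun i => eval₂ σ (tr (sv σ y) (sv σ a) (sv σ b)) (F j i) : Fin N → L) = 0 at hy2
      rw [← sv_vF] at hy1 hy2
      have hy3 : vF F j y a b ≠ 0 := by
        intro h0
        apply hy2
        rw [h0]
        funext i
        simp [sv]
      rw [eval_comp]
      by_cases hj' : vF F j' y a b = 0
      · rw [hj', hzero]
      · have e1 := h.val y hy a ha b hb j' hj'
        have e2 := h.val y hy a ha b hb j hy3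
        obtain ⟨-, -, c, hc⟩ := e1.trans e2.symm
        change vF F j' y a b = c • vF F j y a b at hc
        rw [hc, he, hUf _ (h.memF hy ha hb hy3) hy1, mul_zero]
  -- back
  obtain ⟨j₂, hj₂⟩ := h.ex hQab hb ha
  set y₀ := vF F j₂ (t Q a b) b a with hy₀
  have hy₀D : y₀ ∈ D := h.memF hQab hb ha hj₂
  have hy₀Q : Same y₀ Q := by
    have e1 : Same y₀ (t (t Q a b) b a) := h.val _ hQab b hb a ha j₂ hj₂
    have e2 := h.assoc Q hQ a ha b hb b hb a ha
    have e3 : Same (t Q a (t b b a)) (t Q a a) :=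
      h.congr hQ ha ha hQ ha (h.mem b hb b hb a ha) (Same.refl (h.ne_zero _ hQ))
        (Same.refl (h.ne_zero _ ha)) (h.id1 b hb a ha)
    exact ((e1.trans e2).trans e3).trans (h.id2 Q hQ a ha)
  obtain ⟨j₃, hj₃⟩ := h.ex hy₀D ha hb
  have hcQ : comp F j₃ a b f ∈ IA σ D (sv σ y₀) := by
    rw [IA_same h.smul hσ hy₀Q]
    exact hle (hcomp j₃)
  obtain ⟨V, hV, hxV, hVf⟩ := mem_IA'.1 hcQ
  rw [mem_IA']
  have hc2 : Continuous fun z : Fin N → L =>
      (fun i => eval₂ σ (tr z (sv σ b) (sv σ a)) (F j₂ i) : Fin N → L) :=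
    (cont_F σ F j₂).comp (continuous_id.prodMk (continuous_const.prodMk continuous_const))
  have hc3 : Continuous fun z : Fin N → L =>
      (fun i => eval₂ σ (tr z (sv σ a) (sv σ b)) (F j₃ i) : Fin N → L) :=
    (cont_F σ F j₃).comp (continuous_id.prodMk (continuous_const.prodMk continuous_const))
  refine ⟨(fun z : Fin N → L =>
      (fun i => eval₂ σ (tr z (sv σ b) (sv σ a)) (F j₂ i) : Fin N → L)) ⁻¹'
        ((V ∩ {0}ᶜ) ∩ (fun z : Fin N → L =>
      (fun i => eval₂ σ (tr z (sv σ a) (sv σ b)) (F j₃ i) : Fin N → L)) ⁻¹' {0}ᶜ),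
    ((hV.inter isOpen_compl_singleton).inter
      (isOpen_compl_singleton.preimage hc3)).preimage hc2, ⟨⟨?_, ?_⟩, ?_⟩, ?_⟩
  · change (fun i => eval₂ σ (tr (sv σ (t Q a b)) (sv σ b) (sv σ a)) (F j₂ i) : Fin N → L) ∈ V
    rw [← sv_vF]
    exact hxV
  · change ¬ (fun i => eval₂ σ (tr (sv σ (t Q a b)) (sv σ b) (sv σ a)) (F j₂ i) :
      Fin N → L) = 0
    rw [← sv_vF]
    exact sv_ne hj₂
  · change ¬ (fun i => eval₂ σ (tr (fun i => eval₂ σ (tr (sv σ (t Q a b)) (sv σ b) (sv σ a))
      (F j₂ i)) (sv σ a) (sv σ b)) (F j₃ i) : Fin N → L) = 0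
    rw [← sv_vF, ← sv_vF]
    exact sv_ne hj₃
  · rintro w hw ⟨⟨hw1, hw2⟩, hw3⟩
    change (fun i => eval₂ σ (tr (sv σ w) (sv σ b) (sv σ a)) (F j₂ i) : Fin N → L) ∈ V at hw1
    change ¬ (fun i => eval₂ σ (tr (sv σ w) (sv σ b) (sv σ a)) (F j₂ i) :
      Fin N → L) = 0 at hw2
    change ¬ (fun i => eval₂ σ (tr (fun i => eval₂ σ (tr (sv σ w) (sv σ b) (sv σ a))
      (F j₂ i)) (sv σ a) (sv σ b)) (F j₃ i) : Fin N → L) = 0 at hw3
    rw [← sv_vF] at hw1 hw2 hw3
    rw [← sv_vF] at hw3
    have hy1 : vF F j₂ w b a ≠ 0 := by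
      intro h0
      apply hw2
      rw [h0]
      funext i
      simp [sv]
    have hyD := h.memF hw hb ha hy1
    have hy2 : vF F j₃ (vF F j₂ w b a) a b ≠ 0 := by
      intro h0
      apply hw3
      rw [h0]
      funext i
      simp [sv]
    have h5 := hVf _ hyD hw1
    rw [eval_comp] at h5
    -- the composed point is `w`
    have e1 : Same (vF F j₃ (vF F j₂ w b a) a b) (t (vF F j₂ w b a) a b) :=
      h.val _ hyD a ha b hb j₃ hy2
    have e2 : Same (t (vF F j₂ w b a) a b) (t (t w b a) a b) :=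
      h.congr (h.mem w hw b hb a ha) ha hb hyD ha hb (h.val w hw b hb a ha j₂ hy1)
        (Same.refl (h.ne_zero _ ha)) (Same.refl (h.ne_zero _ hb))
    have e3 := h.assoc w hw b hb a ha a ha b hb
    have e4 : Same (t w b (t a a b)) (t w b b) :=
      h.congr hw hb hb hw hb (h.mem a ha a ha b hb) (Same.refl (h.ne_zero _ hw))
        (Same.refl (h.ne_zero _ hb)) (h.id1 a ha b hb)
    obtain ⟨-, -, c, hc⟩ := (((e1.trans e2).trans e3).trans e4).trans (h.id2 w hw b hb)
    have hc0 := Same.c_ne hy2 hc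
    rw [hc, he] at h5
    rcases mul_eq_zero.1 h5 with h6 | h6
    · exact absurd h6 (pow_ne_zero e hc0)
    · exact h6

/-- **comparable local ideals are equal** -/
lemma chain (h : Data σ D t F d) (hσ : DenseRange σ) {P Q : Fin N → K} (hP : P ∈ D)
    (hQ : Q ∈ D) (hle : IA σ D (sv σ P) ≤ IA σ D (sv σ Q)) :
    IA σ D (sv σ P) = IA σ D (sv σ Q) := by
  -- the orbit of `P`
  let p : ℕ → Fin N → K := fun k => Nat.rec P (fun _ x => t x P Q) k
  have hp0 : p 0 = P := rfl
  have hps : ∀ k, p (k + 1) = t (p k) P Q := fun k => rfl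
  have hpD : ∀ k, p k ∈ D := by
    intro k
    induction k with
    | zero => exact hP
    | succ k ih => rw [hps]; exact h.mem _ ih P hP Q hQ
  have hmono : ∀ k, IA σ D (sv σ (p k)) ≤ IA σ D (sv σ (p (k + 1))) := by
    intro k
    induction k with
    | zero =>
      rw [hps, hp0]
      rw [IA_same h.smul hσ (h.id1 P hP Q hQ)]
      exact hle
    | succ k ih =>
      exact transport h hσ (hpD k) (hpD (k + 1)) hP hQ ih
  have hmon : Monotone fun k => IA σ D (sv σ (p k)) := monotone_nat_of_le_succ hmono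
  obtain ⟨n, hn⟩ := (monotone_stabilizes_iff_noetherian (R := MvPolynomial (Fin N) K)
    (M := MvPolynomial (Fin N) K)).2 inferInstance ⟨fun k => IA σ D (sv σ (p k)), hmon⟩
  have hn1 : IA σ D (sv σ (p (n + 1))) ≤ IA σ D (sv σ (p n)) := (hn (n + 1) (by omega)).symm.le
  -- go back
  have hback : ∀ k, IA σ D (sv σ (p (k + 1))) ≤ IA σ D (sv σ (p k)) →
      IA σ D (sv σ Q) ≤ IA σ D (sv σ P) := by
    intro k
    induction k with
    | zero =>
      intro h1
      rw [hps, hp0, IA_same h.smul hσ (h.id1 P hP Q hQ)] at h1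
      exact h1
    | succ k ih =>
      intro h1
      apply ih
      have h2 := transport h hσ (hpD (k + 2)) (hpD (k + 1)) hQ hP h1
      have h3 : ∀ k, Same (t (p (k + 1)) Q P) (p k) := by
        intro k
        rw [hps]
        have e2 := h.assoc (p k) (hpD k) P hP Q hQ Q hQ P hP
        have e4 : Same (t (p k) P (t Q Q P)) (t (p k) P P) :=
          h.congr (hpD k) hP hP (hpD k) hP (h.mem Q hQ Q hQ P hP)
            (Same.refl (h.ne_zero _ (hpD k))) (Same.refl (h.ne_zero _ hP)) (h.id1 Q hQ P hP)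
        exact (e2.trans e4).trans (h.id2 _ (hpD k) P hP)
      rwa [IA_same h.smul hσ (h3 (k + 1)), IA_same h.smul hσ (h3 k)] at h2
  exact le_antisymm hle (hback n hn1)

end Pool.Agent.J4H62.AV
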